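import Pool.Agent.Results.MP_6bc78b_nt.IsolatedSimpleZeros

/-!
# Most gaps between consecutive ordinates have the order of the mean gap

Unconditionally, in short intervals `(T, T + H]`, `T ^ h ≤ H ≤ T`: at least `(2 - c(h) - ε) N` of the
indices `n` satisfy `η / log T ≤ γ_{n+1} - γ_n ≤ K / log T`, and at least
`((5 - 3 c(h)) / 2 - ε) N` of the zeros are simple, on the critical line, and have distance at least
`η / log T` from the ordinates of all other zeros; for `T ^ h₀ ≤ H ≤ T` the proportions are at least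
`0.6725 + κ` and `0.50875 + κ`.

Proof.  `Pool.Agent.Results.MP_6bc78b_nt.IsolatedSimpleZeros` of the starting library gives simple
zeros on the critical line that are isolated in the plane. A cluster of ordinates with steps less
than `η / log T` that contains `k` of them contains at least `(k - 1) δ / η` ordinates; an isolated
zero whose ordinate is near that of another zero belongs to a pair of zeros off the critical line.
-/

open Filter Topology Complex

namespace Pool.Agent.Results.MP_af3d17_nt.OrdinateGaps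

/-- the nontrivial zeros of zeta -/
def zeros : Set ℂ := {s : ℂ | riemannZeta s = 0 ∧ 0 < s.re ∧ s.re < 1}

/-- the number of nontrivial zeros with ordinate in `(T₁, T₂]`, counted with multiplicity -/
noncomputable def N (T₁ T₂ : ℝ) : ℕ :=
  ∑ᶠ s ∈ {s ∈ zeros | T₁ < s.im ∧ s.im ≤ T₂}, analyticOrderNatAt riemannZeta s

/-- the `n`-th positive ordinate `γ_n` (`n ≥ 1`), in nondecreasing order and repeated according to
multiplicity: the least `t` with at least `n` zeros in `(0, t]` -/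
noncomputable def gam (n : ℕ) : ℝ := sInf {t : ℝ | n ≤ N 0 t}

/-- the `n ≥ 1` with `T₁ < γ_n ≤ T₂` and `d ≤ γ_{n+1} - γ_n ≤ D` -/
def normal (T₁ T₂ d D : ℝ) : Set ℕ :=
  {n : ℕ | 1 ≤ n ∧ T₁ < gam n ∧ gam n ≤ T₂ ∧ d ≤ gam (n + 1) - gam n ∧ gam (n + 1) - gam n ≤ D}

/-- the `n ≥ 1` with `T₁ < γ_n ≤ T₂` and `γ_{n+1} - γ_n ≥ d` -/
def wide (T₁ T₂ d : ℝ) : Set ℕ :=
  {n : ℕ | 1 ≤ n ∧ T₁ < gam n ∧ gam n ≤ T₂ ∧ d ≤ gam (n + 1) - gam n}

/-- the ordinates `t ∈ (T₁, T₂]` of nontrivial zeros with no ordinate in `(t, t + d)` -/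
def far (T₁ T₂ d : ℝ) : Set ℝ :=
  {t : ℝ | T₁ < t ∧ t ≤ T₂ ∧ (∃ s ∈ zeros, s.im = t) ∧ ∀ s ∈ zeros, ¬ (t < s.im ∧ s.im < t + d)}

/-- the `t ∈ (T₁, T₂]` such that `1/2 + it` is a simple zero and the ordinates of all other
nontrivial zeros have distance at least `d` from `t` -/
def lone (T₁ T₂ d : ℝ) : Set ℝ :=
  {t : ℝ | T₁ < t ∧ t ≤ T₂ ∧ riemannZeta (1 / 2 + I * t) = 0 ∧
    deriv riemannZeta (1 / 2 + I * t) ≠ 0 ∧ ∀ s ∈ zeros, s ≠ 1 / 2 + I * t → d ≤ |s.im - t|}

lemma split_card (G : Finset ℝ) {a b c : ℝ} (h1 : a < b) (h2 : b ≤ c) :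
    ((G.filter (fun x => x < a)).card : ℝ) + (G.filter (fun x => a ≤ x ∧ x < b)).card ≤
      (G.filter (fun x => x < c)).card := by
  classical
  have h : (G.filter (fun x => x < a)).card + (G.filter (fun x => a ≤ x ∧ x < b)).card ≤
      (G.filter (fun x => x < c)).card := by
    rw [← Finset.card_union_of_disjoint]
    · refine Finset.card_le_card ?_
      intro x hx
      simp only [Finset.mem_union, Finset.mem_filter] at hx ⊢
      rcases hx with ⟨h, h'⟩ | ⟨h, h', h''⟩
      · exact ⟨h, by linarith⟩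
      · exact ⟨h, by linarith⟩
    · rw [Finset.disjoint_left]
      intro x hx hy
      simp only [Finset.mem_filter] at hx hy
      linarith [hx.2, hy.2.1]
  exact_mod_cast h

lemma chain (G O : Finset ℝ) {r : ℝ} (hr : 0 ≤ r) (J : Finset ℝ) :
    (∀ a ∈ J, ∀ b ∈ J, a < b → (1 : ℝ) ≤ (G.filter (fun x => a ≤ x ∧ x < b)).card +
      r * (O.filter (fun x => a ≤ x ∧ x < b)).card) →
    ∀ b : ℝ, (∀ x ∈ J, x ≤ b) → (J.card : ℝ) ≤ 1 + (G.filter (fun x => x < b)).card +
      r * (O.filter (fun x => x < b)).card := by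
  classical
  induction J using Finset.induction_on_max with
  | empty =>
    intro _ b _
    simp only [Finset.card_empty, Nat.cast_zero]
    positivity
  | insert a s has ih =>
    intro hJ b hb
    have hns : a ∉ s := fun h => lt_irrefl a (has a h)
    rw [Finset.card_insert_of_notMem hns]
    push_cast
    have hab := hb a (Finset.mem_insert_self a s)
    rcases s.eq_empty_or_nonempty with rfl | hne
    · simp only [Finset.card_empty, Nat.cast_zero, zero_add]
      have : (0 : ℝ) ≤ (G.filter (fun x => x < b)).card + r * (O.filter (fun x => x < b)).card := by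
        positivity
      linarith
    · have hm := Finset.max'_mem s hne
      set m := s.max' hne with hmdef
      have h1 := ih (fun x hx y hy => hJ x (Finset.mem_insert_of_mem hx) y
        (Finset.mem_insert_of_mem hy)) m (fun x hx => Finset.le_max' s x hx)
      have h2 := hJ m (Finset.mem_insert_of_mem hm) a (Finset.mem_insert_self a s) (has m hm)
      have h3 := split_card G (has m hm) hab
      have h4 := mul_le_mul_of_nonneg_left (split_card O (has m hm) hab) hr
      rw [mul_add] at h4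
      linarith

lemma cover (O' : Finset ℝ) {a b d : ℝ} (hd : 0 < d)
    (h : ∀ x, a ≤ x → x < b → ∃ o ∈ O', o ≤ x ∧ x < o + d) :
    b - a ≤ d * O'.card := by
  have h1 : MeasureTheory.volume (Set.Ico a b) ≤
      ∑ o ∈ O', MeasureTheory.volume (Set.Ico o (o + d)) := by
    refine (MeasureTheory.measure_mono ?_).trans
      (MeasureTheory.measure_biUnion_finset_le O' fun o => Set.Ico o (o + d))
    intro x hx
    obtain ⟨o, ho, h1, h2⟩ := h x hx.1 hx.2
    simp only [Set.mem_iUnion]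
    exact ⟨o, ho, h1, h2⟩
  simp only [Real.volume_Ico, add_sub_cancel_left, Finset.sum_const, nsmul_eq_mul] at h1
  rw [← ENNReal.ofReal_natCast, ← ENNReal.ofReal_mul (by positivity)] at h1
  have := (ENNReal.ofReal_le_ofReal_iff (by positivity)).mp h1
  linarith

/-- separated points meet every cluster essentially once -/
lemma count1 (W : Set ℝ) (O J G : Finset ℝ) {T1 T2 d D : ℝ} (hd : 0 < d) (hD : 0 < D)
    (hO : ∀ x, x ∈ O ↔ x ∈ W ∧ T1 < x ∧ x ≤ T2) (hJ : J ⊆ O)
    (hs : ∀ a ∈ J, ∀ b ∈ J, a < b → D ≤ b - a)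
    (hG : ∀ x, x ∈ O → (∀ s ∈ W, ¬ (x < s ∧ s < x + d)) → x ∈ G) :
    (J.card : ℝ) ≤ 1 + G.card + d / D * O.card := by
  classical
  have hr : 0 ≤ d / D := by positivity
  have key := chain G O hr J (fun a ha b hb hab => ?_) T2 (fun x hx => ((hO x).mp (hJ hx)).2.2)
  · have h1 : ((G.filter (fun x => x < T2)).card : ℝ) ≤ G.card := by
      exact_mod_cast Finset.card_le_card (Finset.filter_subset _ _)
    have h2 : ((O.filter (fun x => x < T2)).card : ℝ) ≤ O.card := by
      exact_mod_cast Finset.card_le_card (Finset.filter_subset _ _)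
    have h3 := mul_le_mul_of_nonneg_left h2 hr
    linarith
  · rcases (G.filter (fun x => a ≤ x ∧ x < b)).eq_empty_or_nonempty with he | hne
    · have hc := cover (O.filter (fun x => a ≤ x ∧ x < b)) (a := a) (b := b) hd (by
        intro x hax hxb
        have hne : (O.filter (fun y => a ≤ y ∧ y ≤ x)).Nonempty :=
          ⟨a, by rw [Finset.mem_filter]; exact ⟨hJ ha, le_rfl, hax⟩⟩
        have hm := Finset.max'_mem _ hne
        have hmax := fun y hy => Finset.le_max' (O.filter (fun y => a ≤ y ∧ y ≤ x)) y hy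
        set o := (O.filter (fun y => a ≤ y ∧ y ≤ x)).max' hne with hodef
        rw [Finset.mem_filter] at hm
        obtain ⟨ho1, ho2, ho3⟩ := hm
        refine ⟨o, ?_, ho3, ?_⟩
        · rw [Finset.mem_filter]; exact ⟨ho1, ho2, by linarith⟩
        · by_contra hcon
          push Not at hcon
          have hoG : o ∉ G := by
            intro hoG
            have : o ∈ G.filter (fun x => a ≤ x ∧ x < b) := by
              rw [Finset.mem_filter]; exact ⟨hoG, ho2, by linarith⟩
            rw [he] at this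
            exact absurd this (Finset.notMem_empty _)
          apply hoG
          refine hG o ho1 fun s hsW hs => ?_
          have hb2 := ((hO b).mp (hJ hb)).2.2
          have ho4 := ((hO o).mp ho1).2.1
          have hsO : s ∈ O := (hO s).mpr ⟨hsW, by linarith [hs.1], by linarith [hs.2]⟩
          have := hmax s (by
            rw [Finset.mem_filter]
            exact ⟨hsO, by linarith [hs.1], by linarith [hs.2]⟩)
          linarith [hs.1])
      rw [he, Finset.card_empty, Nat.cast_zero, zero_add]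
      have h1 := (hs a ha b hb hab).trans hc
      rw [div_mul_eq_mul_div, le_div_iff₀ hD]
      linarith
    · have h1 : (1 : ℝ) ≤ (G.filter (fun x => a ≤ x ∧ x < b)).card := by
        exact_mod_cast Finset.card_pos.mpr hne
      have h2 : 0 ≤ d / D * ((O.filter (fun x => a ≤ x ∧ x < b)).card : ℝ) := by positivity
      linarith

/-- points at distance less than `D` from each other -/
lemma one_point (J : Finset ℝ) {D u v : ℝ} (hs : ∀ a ∈ J, ∀ b ∈ J, a < b → D ≤ b - a)
    (huv : v - u < D) : (J.filter (fun x => u ≤ x ∧ x ≤ v)).card ≤ 1 := by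
  rw [Finset.card_le_one]
  intro a ha b hb
  rw [Finset.mem_filter] at ha hb
  by_contra hne
  rcases lt_or_gt_of_ne hne with h | h
  · linarith [hs a ha.1 b hb.1 h, ha.2.1, hb.2.2]
  · linarith [hs b hb.1 a ha.1 h, hb.2.1, ha.2.2]

/-- the separated points whose ordinate is near that of another zero -/
lemma count2 (J I : Finset ℝ) (R : Finset ℂ) {T1 T2 d D : ℝ} (hd : 0 < d) (hD : 2 * d ≤ D)
    (hJ : ∀ t ∈ J, T1 < t ∧ t ≤ T2)
    (hs : ∀ a ∈ J, ∀ b ∈ J, a < b → D ≤ b - a)
    (hI : ∀ t ∈ J, t ∉ I → ∃ s : ℂ, |s.im - t| < d ∧ (T1 < s.im → s.im ≤ T2 → s ∈ R)) :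
    (J.card : ℝ) ≤ 2 + I.card + R.card := by
  classical
  choose! f hf1 hf2 using hI
  have hsub : J ⊆ I ∪ ((J.filter (fun x => x ∉ I ∧ f x ∈ R)) ∪
      ((J.filter (fun x => T1 ≤ x ∧ x ≤ T1 + d)) ∪ (J.filter (fun x => T2 - d ≤ x ∧ x ≤ T2)))) := by
    intro t ht
    simp only [Finset.mem_union, Finset.mem_filter]
    by_cases h1 : t ∈ I
    · exact Or.inl h1
    right
    have h2 := hf1 t ht h1
    rw [abs_lt] at h2
    have h3 := hJ t ht
    by_cases h4 : T1 < (f t).im
    · by_cases h5 : (f t).im ≤ T2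
      · exact Or.inl ⟨ht, h1, hf2 t ht h1 h4 h5⟩
      · right; right
        push Not at h5
        exact ⟨ht, by linarith [h2.2], h3.2⟩
    · right; left
      push Not at h4
      exact ⟨ht, h3.1.le, by linarith [h2.1]⟩
  have h1 : (J.filter (fun x => x ∉ I ∧ f x ∈ R)).card ≤ R.card := by
    refine Finset.card_le_card_of_injOn f ?_ ?_
    · intro x hx
      rw [Finset.mem_coe, Finset.mem_filter] at hx
      exact hx.2.2
    · intro x hx y hy hxy
      rw [Finset.mem_coe, Finset.mem_filter] at hx hy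
      have a1 := hf1 x hx.1 hx.2.1
      have a2 := hf1 y hy.1 hy.2.1
      rw [abs_lt] at a1 a2
      rw [hxy] at a1
      by_contra hne
      rcases lt_or_gt_of_ne hne with h | h
      · linarith [hs x hx.1 y hy.1 h, a1.1, a1.2, a2.1, a2.2]
      · linarith [hs y hy.1 x hx.1 h, a1.1, a1.2, a2.1, a2.2]
  have h2 := one_point J (u := T1) (v := T1 + d) hs (by linarith)
  have h3 := one_point J (u := T2 - d) (v := T2) hs (by linarith)
  have h4 := Finset.card_le_card hsub
  have h5 := Finset.card_union_le I ((J.filter (fun x => x ∉ I ∧ f x ∈ R)) ∪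
      ((J.filter (fun x => T1 ≤ x ∧ x ≤ T1 + d)) ∪ (J.filter (fun x => T2 - d ≤ x ∧ x ≤ T2))))
  have h6 := Finset.card_union_le (J.filter (fun x => x ∉ I ∧ f x ∈ R))
      ((J.filter (fun x => T1 ≤ x ∧ x ≤ T1 + d)) ∪ (J.filter (fun x => T2 - d ≤ x ∧ x ≤ T2)))
  have h7 := Finset.card_union_le (J.filter (fun x => T1 ≤ x ∧ x ≤ T1 + d))
    (J.filter (fun x => T2 - d ≤ x ∧ x ≤ T2))
  have h8 : J.card ≤ 2 + I.card + R.card := by omega
  exact_mod_cast h8

open Pool.Agent.Results.MP_6bc78b_nt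

lemma N_eq (T₁ T₂ : ℝ) : N T₁ T₂ = H370.NN riemannZeta T₁ T₂ := by
  have h : {s ∈ zeros | T₁ < s.im ∧ s.im ≤ T₂} = H370.zset riemannZeta T₁ T₂ := by
    ext s
    simp only [zeros, H370.zset, Set.mem_ofPred_eq]
    tauto
  unfold N H370.NN H370.mult
  rw [h]

lemma zero_symm {s : ℂ} (h : s ∈ zeros) (him : 1 ≤ s.im) : 1 - (starRingEnd ℂ) s ∈ zeros := by
  obtain ⟨h1, h2, h3⟩ := h
  have h4 := H370.good_zeta.symm s h2 h3 him
  have h5 : (1 - (starRingEnd ℂ) s).im = s.im := by simp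
  have h6 := H370.good_zeta.an s (by linarith)
  have h7 := H370.good_zeta.an (1 - (starRingEnd ℂ) s) (by rw [h5]; linarith)
  refine ⟨?_, by simp; linarith, by simp; linarith⟩
  rw [← h7.analyticOrderAt_ne_zero, h4, h6.analyticOrderAt_ne_zero]
  exact h1

lemma iso_sep {T₁ T₂ D : ℝ} {a b : ℝ} (ha : a ∈ IsolatedSimpleZeros.isolated T₁ T₂ D)
    (hb : b ∈ IsolatedSimpleZeros.isolated T₁ T₂ D) (hab : a < b) : D ≤ b - a := by
  have h1 := ha.2.2.2.2 (1 / 2 + I * b) ((IsolatedSimpleZeros.Z_zero_iff b).mp hb.2.2.1)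
    (by norm_num) (by norm_num) (by
      intro h
      have := congrArg Complex.im h
      simp at this
      linarith)
  have h2 : (1 / 2 + I * (b : ℂ)) - (1 / 2 + I * (a : ℂ)) = I * ((b - a : ℝ) : ℂ) := by
    push_cast; ring
  rw [h2, norm_mul, Complex.norm_I, one_mul, Complex.norm_real, Real.norm_of_nonneg (by linarith)]
    at h1
  exact h1

lemma A_card_le {A B : ℝ} (hA : 1 ≤ A) : (H370.Zf riemannZeta A B).card ≤ N A B := by
  rw [N_eq, H370.NN_eq H370.good_zeta hA, Finset.card_eq_sum_ones]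
  refine Finset.sum_le_sum fun s hs => ?_
  obtain ⟨h1, h2, h3, h4, h5⟩ := (H370.mem_Zf H370.good_zeta hA).mp hs
  exact H370.Loc.mult_pos' H370.good_zeta (by linarith) h5

lemma half_re (t : ℝ) : (1 / 2 + I * (t : ℂ)).re = 1 / 2 := by simp
lemma half_im (t : ℝ) : (1 / 2 + I * (t : ℂ)).im = t := by simp

lemma core {T H δ P η : ℝ} (hT : 10 ≤ T) (hδ : 0 < δ) (hη : 0 < η)
    (hηδ : 2 * η ≤ δ)
    (hJ : P * (N T (T + H) : ℝ) ≤
      ((IsolatedSimpleZeros.isolated T (T + H) (δ / Real.log T)).ncard : ℝ)) :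
    (P - η / δ) * (N T (T + H) : ℝ) - 1 ≤ ((far T (T + H) (η / Real.log T)).ncard : ℝ) ∧
    ((3 * P - 1) / 2) * (N T (T + H) : ℝ) - 2 ≤
      ((lone T (T + H) (η / Real.log T)).ncard : ℝ) := by
  classical
  have hL : 0 < Real.log T := Real.log_pos (by linarith)
  set D := δ / Real.log T with hD
  set d := η / Real.log T with hd
  have hD0 : 0 < D := by positivity
  have hd0 : 0 < d := by positivity
  have hdD : 2 * d ≤ D := by
    rw [hd, hD, ← mul_div_assoc]
    gcongr
  have hdr : d / D = η / δ := by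
    rw [hd, hD]
    field_simp
  have hT1 : (1 : ℝ) ≤ T := by linarith
  set A := H370.Zf riemannZeta T (T + H) with hA
  have hmem : ∀ s, s ∈ A ↔ s ∈ H370.zset riemannZeta T (T + H) :=
    fun s => H370.mem_Zf H370.good_zeta hT1
  set O : Finset ℝ := A.image Complex.im with hOdef
  set W : Set ℝ := {t : ℝ | ∃ s ∈ zeros, s.im = t} with hW
  have hO : ∀ x, x ∈ O ↔ x ∈ W ∧ T < x ∧ x ≤ T + H := by
    intro x
    rw [hOdef, Finset.mem_image]
    constructor
    · rintro ⟨s, hs, rfl⟩
      obtain ⟨h1, h2, h3, h4, h5⟩ := (hmem s).mp hs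
      exact ⟨⟨s, ⟨h5, h1, h2⟩, rfl⟩, h3, h4⟩
    · rintro ⟨⟨s, ⟨h5, h1, h2⟩, rfl⟩, h3, h4⟩
      exact ⟨s, (hmem s).mpr ⟨h1, h2, h3, h4, h5⟩, rfl⟩
  have hJfin := IsolatedSimpleZeros.isolated_finite T (T + H) D (by linarith)
  set J := hJfin.toFinset with hJdef
  have hJmem : ∀ t, t ∈ J ↔ t ∈ IsolatedSimpleZeros.isolated T (T + H) D := fun t => by
    rw [hJdef, Set.Finite.mem_toFinset]
  have hzJ : ∀ t ∈ J, (1 / 2 + I * (t : ℂ)) ∈ zeros := by
    intro t ht
    exact ⟨(IsolatedSimpleZeros.Z_zero_iff t).mp ((hJmem t).mp ht).2.2.1,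
      by rw [half_re]; norm_num, by rw [half_re]; norm_num⟩
  have hJO : J ⊆ O := by
    intro t ht
    exact (hO t).mpr ⟨⟨_, hzJ t ht, half_im t⟩, ((hJmem t).mp ht).1, ((hJmem t).mp ht).2.1⟩
  have hsep : ∀ a ∈ J, ∀ b ∈ J, a < b → D ≤ b - a := fun a ha b hb hab =>
    iso_sep ((hJmem a).mp ha) ((hJmem b).mp hb) hab
  have hJc : ((IsolatedSimpleZeros.isolated T (T + H) D).ncard : ℝ) = J.card := by
    rw [Set.ncard_eq_toFinset_card _ hJfin]
  rw [hJc] at hJ
  have hfarfin : (far T (T + H) d).Finite := by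
    refine O.finite_toSet.subset ?_
    rintro t ⟨h1, h2, h3, h4⟩
    exact (hO t).mpr ⟨h3, h1, h2⟩
  have hlonefin : (lone T (T + H) d).Finite := by
    refine O.finite_toSet.subset ?_
    rintro t ⟨h1, h2, h3, h4, h5⟩
    exact (hO t).mpr ⟨⟨_, ⟨h3, by rw [half_re]; norm_num, by rw [half_re]; norm_num⟩, half_im t⟩,
      h1, h2⟩
  have hAN : (A.card : ℝ) ≤ N T (T + H) := by exact_mod_cast A_card_le hT1
  have hOA : (O.card : ℝ) ≤ A.card := by exact_mod_cast Finset.card_image_le
  constructor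
  · rw [Set.ncard_eq_toFinset_card _ hfarfin]
    have h1 := count1 W O J hfarfin.toFinset hd0 hD0 hO hJO hsep (by
      intro x hx hx2
      rw [Set.Finite.mem_toFinset]
      obtain ⟨h1, h2, h3⟩ := (hO x).mp hx
      exact ⟨h2, h3, h1, fun s hs => hx2 s.im ⟨s, hs, rfl⟩⟩)
    rw [hdr] at h1
    have h2 : η / δ * (O.card : ℝ) ≤ η / δ * N T (T + H) :=
      mul_le_mul_of_nonneg_left (hOA.trans hAN) (by positivity)
    rw [sub_mul]
    linarith
  · rw [Set.ncard_eq_toFinset_card _ hlonefin]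
    set R := A.filter (fun s => 1 / 2 < s.re) with hR
    have h1 := count2 J hlonefin.toFinset R (T1 := T) (T2 := T + H) hd0 hdD
      (fun t ht => ⟨((hJmem t).mp ht).1, ((hJmem t).mp ht).2.1⟩) hsep (by
      intro t ht htI
      have htJ := (hJmem t).mp ht
      have hz := hzJ t ht
      have hder : deriv riemannZeta (1 / 2 + I * (t : ℂ)) ≠ 0 := by
        intro h0
        apply htJ.2.2.2.1
        rw [(IsolatedSimpleZeros.Z_hasDerivAt t hz.1).deriv, h0]
        simp
      have hex : ∃ s ∈ zeros, s ≠ 1 / 2 + I * (t : ℂ) ∧ |s.im - t| < d := by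
        by_contra hcon
        push Not at hcon
        apply htI
        rw [Set.Finite.mem_toFinset]
        exact ⟨htJ.1, htJ.2.1, hz.1, hder, hcon⟩
      obtain ⟨s, hs, hne, hlt⟩ := hex
      have hre : s.re ≠ 1 / 2 := by
        intro hre
        have h2 := htJ.2.2.2.2 s hs.1 hs.2.1 hs.2.2 hne
        have h3 : s - (1 / 2 + I * (t : ℂ)) = I * ((s.im - t : ℝ) : ℂ) := by
          apply Complex.ext
          · simp [hre]
          · simp
        rw [h3, norm_mul, Complex.norm_I, one_mul, Complex.norm_real, Real.norm_eq_abs] at h2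
        linarith
      rcases lt_or_gt_of_ne hre with h | h
      · refine ⟨1 - (starRingEnd ℂ) s, by simpa using hlt, fun h5 h6 => ?_⟩
        have him : (1 - (starRingEnd ℂ) s).im = s.im := by simp
        rw [him] at h5 h6
        have h7 := zero_symm hs (by linarith)
        rw [hR, Finset.mem_filter, hmem]
        refine ⟨⟨h7.2.1, h7.2.2, by rw [him]; exact h5, by rw [him]; exact h6, h7.1⟩, ?_⟩
        simp
        linarith
      · refine ⟨s, hlt, fun h5 h6 => ?_⟩
        rw [hR, Finset.mem_filter, hmem]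
        exact ⟨⟨hs.2.1, hs.2.2, h5, h6, hs.1⟩, h⟩)
    have h2 : J.card + (R.card + R.card) ≤ A.card := by
      have e1 : (J.image (fun t : ℝ => (1 / 2 + I * (t : ℂ)))).card = J.card := by
        refine Finset.card_image_of_injective _ fun x y hxy => ?_
        have := congrArg Complex.im hxy
        simpa using this
      have e2 : (R.image (fun s : ℂ => 1 - (starRingEnd ℂ) s)).card = R.card := by
        refine Finset.card_image_of_injective _ fun x y hxy => ?_
        exact (starRingEnd ℂ).injective (by simpa using hxy)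
      rw [← e1]
      nth_rewrite 2 [← e2]
      have d1 : Disjoint R (R.image (fun s : ℂ => 1 - (starRingEnd ℂ) s)) := by
        rw [Finset.disjoint_left]
        intro s hs hs2
        rw [Finset.mem_image] at hs2
        obtain ⟨w, hw, rfl⟩ := hs2
        rw [hR, Finset.mem_filter] at hs hw
        have h3 := hs.2
        have h4 := hw.2
        simp at h3
        linarith
      have d2 : Disjoint (J.image (fun t : ℝ => (1 / 2 + I * (t : ℂ))))
          (R ∪ (R.image (fun s : ℂ => 1 - (starRingEnd ℂ) s))) := by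
        rw [Finset.disjoint_left]
        intro s hs hs2
        rw [Finset.mem_image] at hs
        obtain ⟨t, ht, rfl⟩ := hs
        rw [Finset.mem_union, Finset.mem_image] at hs2
        rcases hs2 with hs2 | ⟨w, hw, hw2⟩
        · rw [hR, Finset.mem_filter] at hs2
          have := hs2.2
          simp at this
        · rw [hR, Finset.mem_filter] at hw
          have h3 := hw.2
          have h4 := congrArg Complex.re hw2
          simp at h4
          linarith
      rw [← Finset.card_union_of_disjoint d1, ← Finset.card_union_of_disjoint d2]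
      refine Finset.card_le_card ?_
      intro s hs
      rw [Finset.mem_union, Finset.mem_union, Finset.mem_image, Finset.mem_image] at hs
      rcases hs with ⟨t, ht, rfl⟩ | hs | ⟨w, hw, rfl⟩
      · have h3 := hzJ t ht
        rw [hmem]
        have h4 := (hJmem t).mp ht
        exact ⟨h3.2.1, h3.2.2, by rw [half_im]; exact h4.1, by rw [half_im]; exact h4.2.1, h3.1⟩
      · exact (Finset.mem_filter.mp hs).1
      · have h3 := (hmem w).mp (Finset.mem_filter.mp hw).1
        obtain ⟨g1, g2, g3, g4, g5⟩ := h3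
        have h7 := zero_symm (s := w) ⟨g5, g1, g2⟩ (by linarith)
        have him : (1 - (starRingEnd ℂ) w).im = w.im := by simp
        rw [hmem]
        exact ⟨h7.2.1, h7.2.2, by rw [him]; exact g3, by rw [him]; exact g4, h7.1⟩
    have h3 : (J.card : ℝ) + (R.card + R.card) ≤ A.card := by exact_mod_cast h2
    linarith

lemma N_large {h : ℝ} (h0 : 0 < h) (K : ℝ) : ∃ T0 : ℝ, 10 ≤ T0 ∧ ∀ T : ℝ, T0 ≤ T → ∀ H : ℝ,
    T ^ h ≤ H → H ≤ T → K ≤ (N T (T + H) : ℝ) ∧
      H * Real.log T ≤ 4 * Real.pi * (N T (T + H) : ℝ) := by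
  obtain ⟨C, hC, hc⟩ := H965SI.countShort riemannZeta H370.good_zeta
  have ev1 : ∀ᶠ T : ℝ in atTop, 8 * Real.pi * (C + 1) ≤ Real.log T :=
    Real.tendsto_log_atTop.eventually_ge_atTop _
  have ev2 := (isLittleO_log_rpow_rpow_atTop (2 : ℝ) h0).bound (c := 1 / (2 * C)) (by positivity)
  have ev3 := (tendsto_rpow_atTop h0).eventually_ge_atTop (max 3 (2 * K))
  obtain ⟨T0, hT0⟩ := eventually_atTop.mp (ev1.and (ev2.and (ev3.and (eventually_ge_atTop 10))))
  refine ⟨max T0 10, le_max_right _ _, fun T hT H hH1 hH2 => ?_⟩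
  obtain ⟨h1, h2, h3, h4⟩ := hT0 T ((le_max_left _ _).trans hT)
  have hL : 0 < Real.log T := Real.log_pos (by linarith)
  rw [Real.rpow_two, Real.norm_of_nonneg (by positivity),
    Real.norm_of_nonneg (Real.rpow_nonneg (by linarith) _)] at h2
  have h5 := (hc T h4 H ((le_max_left _ _).trans h3 |>.trans hH1) hH2 T (T + H) le_rfl
    (by linarith) (by linarith) le_rfl).1
  rw [abs_le] at h5
  rw [N_eq]
  have h6 : 2 * K ≤ T ^ h := (le_max_right _ _).trans h3
  have hH0 : 0 < H := lt_of_lt_of_le (by positivity) hH1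
  have hpi := Real.pi_pos
  have h7 : 4 * ((C + 1) * H) ≤ H * Real.log T / (2 * Real.pi) := by
    rw [le_div_iff₀ (by positivity)]
    nlinarith
  have h8 : C * Real.log T ^ 2 ≤ T ^ h / 2 := by
    have := mul_le_mul_of_nonneg_left h2 hC.le
    calc C * Real.log T ^ 2 ≤ C * (1 / (2 * C) * T ^ h) := this
      _ = T ^ h / 2 := by field_simp
  have hCH : 0 ≤ C * H := by positivity
  refine ⟨by linarith [h5.1], ?_⟩
  have h9 : H * Real.log T / (2 * Real.pi) ≤ 2 * (H370.NN riemannZeta T (T + H) : ℝ) := by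
    linarith [h5.1]
  rw [div_le_iff₀ (by positivity)] at h9
  linarith

/-- the zeros with ordinate in `(0, t]` -/
noncomputable def Y (t : ℝ) : Finset ℂ := (H370.zeta_zeros_finite t).toFinset

lemma mem_Y {t : ℝ} {s : ℂ} : s ∈ Y t ↔ s ∈ zeros ∧ 0 < s.im ∧ s.im ≤ t := by
  unfold Y
  rw [Set.Finite.mem_toFinset]
  constructor
  · rintro ⟨h1, h2, h3, h4, h5⟩
    exact ⟨⟨h5, h1, h2⟩, h3, h4⟩
  · rintro ⟨⟨h5, h1, h2⟩, h3, h4⟩
    exact ⟨h1, h2, h3, h4, h5⟩

lemma N_zero (t : ℝ) : N 0 t = ∑ s ∈ Y t, analyticOrderNatAt riemannZeta s := by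
  unfold N
  have h : {s ∈ zeros | 0 < s.im ∧ s.im ≤ t} = (Y t : Set ℂ) := by
    ext s
    rw [Finset.mem_coe, mem_Y]
    rfl
  rw [h, finsum_mem_coe_finset]

lemma N_mono {t t' : ℝ} (h : t ≤ t') : N 0 t ≤ N 0 t' := by
  rw [N_zero, N_zero]
  refine Finset.sum_le_sum_of_subset fun s hs => ?_
  rw [mem_Y] at hs ⊢
  exact ⟨hs.1, hs.2.1, hs.2.2.trans h⟩

lemma N_step {s : ℂ} (hs : s ∈ zeros) (h0 : 0 < s.im) {t : ℝ} (ht : t < s.im) :
    N 0 t + 1 ≤ N 0 s.im := by
  classical
  have h1 : s ∈ Y s.im := mem_Y.mpr ⟨hs, h0, le_rfl⟩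
  have h2 : s ∉ Y t := fun h => by
    have := (mem_Y.mp h).2.2
    linarith
  have h3 : Y t ⊆ Y s.im := fun w hw => by
    rw [mem_Y] at hw ⊢
    exact ⟨hw.1, hw.2.1, hw.2.2.trans ht.le⟩
  have h4 : insert s (Y t) ⊆ Y s.im := by
    intro w hw
    rcases Finset.mem_insert.mp hw with rfl | hw
    · exact h1
    · exact h3 hw
  have h5 := Finset.sum_le_sum_of_subset (f := fun s => analyticOrderNatAt riemannZeta s) h4
  rw [Finset.sum_insert h2] at h5
  have h6 : 1 ≤ H370.mult riemannZeta s := H370.Loc.mult_pos' H370.good_zeta h0 hs.1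
  unfold H370.mult at h6
  rw [N_zero, N_zero]
  omega

lemma N_same {t t' : ℝ} (h : t ≤ t') (hno : ∀ s ∈ zeros, ¬ (t < s.im ∧ s.im ≤ t')) :
    N 0 t' ≤ N 0 t := by
  rw [N_zero, N_zero]
  refine Finset.sum_le_sum_of_subset fun s hs => ?_
  rw [mem_Y] at hs ⊢
  refine ⟨hs.1, hs.2.1, ?_⟩
  by_contra hcon
  push Not at hcon
  exact hno s hs.1 ⟨hcon, hs.2.2⟩

lemma N_unbdd (K : ℕ) : ∃ t : ℝ, K ≤ N 0 t := by
  obtain ⟨T0, hT0, h⟩ := N_large (h := 1) one_pos (K : ℝ)
  have h1 := (h T0 le_rfl T0 (by rw [Real.rpow_one]) le_rfl).1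
  refine ⟨T0 + T0, ?_⟩
  have h2 : K ≤ N T0 (T0 + T0) := by exact_mod_cast h1
  refine h2.trans ?_
  classical
  rw [N_eq, H370.NN_eq H370.good_zeta (by linarith), N_zero]
  refine Finset.sum_le_sum_of_subset fun s hs => ?_
  obtain ⟨g1, g2, g3, g4, g5⟩ := (H370.mem_Zf H370.good_zeta (by linarith)).mp hs
  exact mem_Y.mpr ⟨⟨g5, g1, g2⟩, by linarith, g4⟩

/-- `γ_n` at the number of the last zero with a given ordinate -/
lemma gam_at {s : ℂ} (hs : s ∈ zeros) (h0 : 0 < s.im) : gam (N 0 s.im) = s.im := by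
  refine IsLeast.csInf_eq ⟨le_refl (N 0 s.im), fun t ht => ?_⟩
  by_contra hcon
  push Not at hcon
  have h1 := N_step hs h0 hcon
  have h2 : N 0 s.im ≤ N 0 t := ht
  omega

lemma gam_next {t d : ℝ} (hno : ∀ s ∈ zeros, ¬ (t < s.im ∧ s.im < t + d)) :
    t + d ≤ gam (N 0 t + 1) := by
  refine le_csInf ?_ fun t' ht' => ?_
  · obtain ⟨u, hu⟩ := N_unbdd (N 0 t + 1)
    exact ⟨u, hu⟩
  · by_contra hcon
    push Not at hcon
    have h2 : N 0 t + 1 ≤ N 0 t' := ht'
    rcases le_total t' t with h | h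
    · have := N_mono h
      omega
    · have := N_same h fun s hs hs2 => hno s hs ⟨hs2.1, by linarith [hs2.2]⟩
      omega

/-- the sets of indices that are counted are finite -/
theorem wide_finite (T₁ T₂ d : ℝ) : (wide T₁ T₂ d).Finite := by
  refine (Set.finite_Iic (N 0 (T₂ + 1))).subset ?_
  rintro n ⟨h1, h2, h3, h4⟩
  have hne : {t : ℝ | n ≤ N 0 t}.Nonempty := N_unbdd n
  obtain ⟨t, ht, ht2⟩ := exists_lt_of_csInf_lt hne (show gam n < T₂ + 1 by linarith)
  exact (show n ≤ N 0 t from ht).trans (N_mono ht2.le)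

lemma far_le_wide {T₁ T₂ d : ℝ} (hT : 0 < T₁) :
    (far T₁ T₂ d).ncard ≤ (wide T₁ T₂ d).ncard := by
  refine Set.ncard_le_ncard_of_injOn (fun t => N 0 t) ?_ ?_ (wide_finite T₁ T₂ d)
  · rintro t ⟨h1, h2, ⟨s, hs, rfl⟩, h4⟩
    have h5 := gam_at hs (by linarith)
    have h6 := gam_next h4
    have h7 := N_step hs (t := s.im - 1) (by linarith) (by linarith)
    exact ⟨by omega, by rw [h5]; exact h1, by rw [h5]; exact h2, by rw [h5]; linarith⟩
  · rintro t ⟨h1, h2, ⟨s, hs, rfl⟩, h4⟩ t' ⟨h1', h2', ⟨s', hs', rfl⟩, h4'⟩ h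
    rw [← gam_at hs (by linarith), ← gam_at hs' (by linarith)]
    exact congrArg gam h

lemma gam_mono {n m : ℕ} (hn : 1 ≤ n) (hnm : n ≤ m) : gam n ≤ gam m := by
  refine csInf_le_csInf ⟨0, fun t ht => ?_⟩ (N_unbdd m) fun t ht => hnm.trans ht
  by_contra hcon
  push Not at hcon
  have h1 : N 0 t = 0 := by
    rw [N_zero]
    refine Finset.sum_eq_zero fun s hs => ?_
    have h2 := mem_Y.mp hs
    linarith [h2.2.1, h2.2.2]
  have h2 : n ≤ N 0 t := ht
  omega

lemma sep_card (J : Finset ℝ) {u v D : ℝ} (hD : 0 < D) (hJ : ∀ x ∈ J, u ≤ x ∧ x ≤ v)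
    (hs : ∀ a ∈ J, ∀ b ∈ J, a < b → D ≤ b - a) (huv : u ≤ v) :
    (J.card : ℝ) ≤ 1 + (v - u) / D := by
  have h1 : J.card ≤ (Finset.range (⌊(v - u) / D⌋₊ + 1)).card := by
    refine Finset.card_le_card_of_injOn (fun x => ⌊(x - u) / D⌋₊) ?_ ?_
    · intro x hx
      have := hJ x hx
      rw [Finset.mem_coe, Finset.mem_range, Nat.lt_succ_iff]
      refine Nat.floor_le_floor ?_
      gcongr
      exact this.2
    · have key : ∀ a ∈ J, ∀ b ∈ J, a < b → ⌊(a - u) / D⌋₊ ≠ ⌊(b - u) / D⌋₊ := by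
        intro a ha b hb hab h
        have h2 := hs a ha b hb hab
        have h3 : (a - u) / D + 1 ≤ (b - u) / D := by
          rw [div_add_one hD.ne', div_le_div_iff_of_pos_right hD]
          linarith
        have h4 := Nat.floor_le_floor h3
        have h0 : 0 ≤ (a - u) / D := div_nonneg (by linarith [(hJ a ha).1]) hD.le
        rw [Nat.floor_add_one h0] at h4
        omega
      intro a ha b hb h
      by_contra hne
      rcases lt_or_gt_of_ne hne with h' | h'
      · exact key a ha b hb h' h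
      · exact key b hb a ha h' h.symm
  rw [Finset.card_range] at h1
  have h2 : (⌊(v - u) / D⌋₊ : ℝ) ≤ (v - u) / D :=
    Nat.floor_le (div_nonneg (by linarith) hD.le)
  have h3 : (J.card : ℝ) ≤ (⌊(v - u) / D⌋₊ : ℝ) + 1 := by exact_mod_cast h1
  linarith

lemma wide_le {T₁ T₂ d D : ℝ} (hT : T₁ ≤ T₂) (hD : 0 < D) :
    ((wide T₁ T₂ d).ncard : ℝ) ≤ (normal T₁ T₂ d D).ncard + (1 + (T₂ - T₁) / D) := by
  classical
  have hfin := wide_finite T₁ T₂ D
  have h1 : wide T₁ T₂ d ⊆ normal T₁ T₂ d D ∪ wide T₁ T₂ D := by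
    rintro n ⟨h1, h2, h3, h4⟩
    rcases le_total (gam (n + 1) - gam n) D with h | h
    · exact Or.inl ⟨h1, h2, h3, h4, h⟩
    · exact Or.inr ⟨h1, h2, h3, h⟩
  have hnfin : (normal T₁ T₂ d D).Finite :=
    (wide_finite T₁ T₂ d).subset fun n ⟨h1, h2, h3, h4, h5⟩ => ⟨h1, h2, h3, h4⟩
  have h2 : (wide T₁ T₂ d).ncard ≤ (normal T₁ T₂ d D).ncard + (wide T₁ T₂ D).ncard :=
    (Set.ncard_le_ncard h1 (hnfin.union hfin)).trans (Set.ncard_union_le _ _)
  have hmem : ∀ n, n ∈ hfin.toFinset ↔ n ∈ wide T₁ T₂ D := fun n => Set.Finite.mem_toFinset _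
  have hstep : ∀ n ∈ hfin.toFinset, ∀ m, n < m → gam n + D ≤ gam m := by
    intro n hn m hnm
    have h3 := (hmem n).mp hn
    have h4 := gam_mono (n := n + 1) (m := m) (by omega) hnm
    linarith [h3.2.2.2]
  have hinj : Set.InjOn gam (hfin.toFinset : Set ℕ) := by
    intro n hn m hm h
    by_contra hne
    rcases lt_or_gt_of_ne hne with h' | h'
    · linarith [hstep n hn m h']
    · linarith [hstep m hm n h']
  have h3 := sep_card (hfin.toFinset.image gam) (u := T₁) (v := T₂) hD (by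
      intro x hx
      rw [Finset.mem_image] at hx
      obtain ⟨n, hn, rfl⟩ := hx
      have h3 := (hmem n).mp hn
      exact ⟨h3.2.1.le, h3.2.2.1⟩) (by
      intro a ha b hb hab
      rw [Finset.mem_image] at ha hb
      obtain ⟨n, hn, rfl⟩ := ha
      obtain ⟨m, hm, rfl⟩ := hb
      rcases lt_or_ge n m with h | h
      · linarith [hstep n hn m h]
      · have := gam_mono ((hmem m).mp hm).1 h
        linarith) hT
  rw [Finset.card_image_of_injOn hinj, ← Set.ncard_eq_toFinset_card _ hfin] at h3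
  have h4 : ((wide T₁ T₂ d).ncard : ℝ) ≤ (normal T₁ T₂ d D).ncard + (wide T₁ T₂ D).ncard := by
    exact_mod_cast h2
  linarith

/-- **most gaps between ordinates are not small** -/
theorem result :
    (∀ h ε : ℝ, 0 < h → h ≤ 1 → 0 < ε → ∃ η K : ℝ, 0 < η ∧ 0 < K ∧ ∃ T₀ : ℝ, ∀ T : ℝ, T₀ ≤ T →
      ∀ H : ℝ, T ^ h ≤ H → H ≤ T →
        (2 - IsolatedSimpleZeros.c h - ε) * (N T (T + H) : ℝ) ≤
          ((normal T (T + H) (η / Real.log T) (K / Real.log T)).ncard : ℝ) ∧
        ((5 - 3 * IsolatedSimpleZeros.c h) / 2 - ε) * (N T (T + H) : ℝ) ≤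
          ((lone T (T + H) (η / Real.log T)).ncard : ℝ)) ∧
    (∃ κ h₀ η K : ℝ, 0 < κ ∧ 0 < h₀ ∧ h₀ < 1 ∧ 0 < η ∧ 0 < K ∧ ∃ T₀ : ℝ, ∀ T : ℝ, T₀ ≤ T →
      ∀ H : ℝ, T ^ h₀ ≤ H → H ≤ T →
        (0.6725 + κ) * (N T (T + H) : ℝ) ≤
          ((normal T (T + H) (η / Real.log T) (K / Real.log T)).ncard : ℝ) ∧
        (0.50875 + κ) * (N T (T + H) : ℝ) ≤
          ((lone T (T + H) (η / Real.log T)).ncard : ℝ)) := by
  obtain ⟨R1, ⟨κ, h₀, hκ, hh0, hh1, R2⟩, R3, R4⟩ := IsolatedSimpleZeros.result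
  have hNn : ∀ T₁ T₂ : ℝ, (IsolatedSimpleZeros.N T₁ T₂ : ℝ) = N T₁ T₂ := fun T₁ T₂ => by
    rw [IsolatedSimpleZeros.N_eq, N_eq]
  have hpi := Real.pi_pos
  constructor
  · intro h ε h0 h1 hε
    set e := min ε 1 with he
    have he0 : 0 < e := lt_min hε one_pos
    have he1 : e ≤ ε := min_le_left _ _
    have he2 : e ≤ 1 := min_le_right _ _
    have hδ0 : 0 < e / 300 := by positivity
    obtain ⟨T1, hT1⟩ := R1 h (e / 300) (e / 4) h0 h1 hδ0 (by linarith) (by positivity)
    obtain ⟨T2, hT2, hT2'⟩ := N_large h0 (16 / e)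
    refine ⟨e / 300 * (e / 4), 64 * Real.pi / e, by positivity, by positivity, max T1 T2,
      fun T hT H hH1 hH2 => ?_⟩
    have hT10 : 10 ≤ T := hT2.trans ((le_max_right _ _).trans hT)
    have hL : 0 < Real.log T := Real.log_pos (by linarith)
    have hH0 : 0 ≤ H := le_trans (by positivity) hH1
    have a1 := hT1 T ((le_max_left _ _).trans hT) H hH1 hH2
    rw [hNn] at a1
    obtain ⟨a2, a7⟩ := hT2' T ((le_max_right _ _).trans hT) H hH1 hH2
    have a3 := core hT10 hδ0 (η := e / 300 * (e / 4)) (by positivity) (by nlinarith) a1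
    have a0 : ((far T (T + H) (e / 300 * (e / 4) / Real.log T)).ncard : ℝ) ≤
        (wide T (T + H) (e / 300 * (e / 4) / Real.log T)).ncard := by
      exact_mod_cast far_le_wide (by linarith)
    have a8 := wide_le (T₁ := T) (T₂ := T + H) (d := e / 300 * (e / 4) / Real.log T)
      (D := 64 * Real.pi / e / Real.log T) (by linarith) (by positivity)
    have a4 : e / 300 * (e / 4) / (e / 300) = e / 4 := by field_simp
    rw [a4] at a3
    have a5 : (16 : ℝ) ≤ (N T (T + H) : ℝ) * e := by rwa [div_le_iff₀ he0] at a2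
    have a6 : 74 * (e / 300) ^ 2 ≤ e / 16 := by nlinarith
    set n := (N T (T + H) : ℝ) with hn
    have hn0 : 0 ≤ n := by positivity
    have a9 : (T + H - T) / (64 * Real.pi / e / Real.log T) ≤ n * e / 16 := by
      rw [div_le_iff₀ (by positivity)]
      have : n * e / 16 * (64 * Real.pi / e / Real.log T) = 4 * Real.pi * n / Real.log T := by
        field_simp
        ring
      rw [this, le_div_iff₀ hL]
      linarith
    constructor
    · have b1 : (2 - IsolatedSimpleZeros.c h - ε) * n ≤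
        (2 - IsolatedSimpleZeros.c h - 74 * (e / 300) ^ 2 - e / 4 - e / 4 - e / 4) * n :=
        mul_le_mul_of_nonneg_right (by linarith) hn0
      have b2 : (2 - IsolatedSimpleZeros.c h - 74 * (e / 300) ^ 2 - e / 4 - e / 4 - e / 4) * n =
        (2 - IsolatedSimpleZeros.c h - 74 * (e / 300) ^ 2 - e / 4 - e / 4) * n - n * e / 4 := by
        ring
      linarith [a3.1]
    · refine le_trans ?_ a3.2
      have b1 : ((5 - 3 * IsolatedSimpleZeros.c h) / 2 - ε) * n ≤
        ((3 * (2 - IsolatedSimpleZeros.c h - 74 * (e / 300) ^ 2 - e / 4) - 1) / 2 - e / 4) * n := by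
        apply mul_le_mul_of_nonneg_right _ hn0
        linarith
      have b2 : ((3 * (2 - IsolatedSimpleZeros.c h - 74 * (e / 300) ^ 2 - e / 4) - 1) / 2
          - e / 4) * n =
        ((3 * (2 - IsolatedSimpleZeros.c h - 74 * (e / 300) ^ 2 - e / 4) - 1) / 2) * n
          - n * e / 4 := by ring
      linarith
  · set e := min κ 1 with he
    have he0 : 0 < e := lt_min hκ one_pos
    have he1 : e ≤ κ := min_le_left _ _
    have he2 : e ≤ 1 := min_le_right _ _
    have hδ0 : 0 < e / 300 := by positivity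
    obtain ⟨T1, hT1⟩ := R2 (e / 300) hδ0 (by linarith)
    obtain ⟨T2, hT2, hT2'⟩ := N_large hh0 (16 / e)
    refine ⟨e / 4, h₀, e / 300 * (e / 4), 64 * Real.pi / e, by positivity, hh0, hh1,
      by positivity, by positivity, max T1 T2, fun T hT H hH1 hH2 => ?_⟩
    have hT10 : 10 ≤ T := hT2.trans ((le_max_right _ _).trans hT)
    have hL : 0 < Real.log T := Real.log_pos (by linarith)
    have hH0 : 0 ≤ H := le_trans (by positivity) hH1
    have a1 := hT1 T ((le_max_left _ _).trans hT) H hH1 hH2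
    rw [hNn] at a1
    obtain ⟨a2, a7⟩ := hT2' T ((le_max_right _ _).trans hT) H hH1 hH2
    have a3 := core hT10 hδ0 (η := e / 300 * (e / 4)) (by positivity) (by nlinarith) a1
    have a0 : ((far T (T + H) (e / 300 * (e / 4) / Real.log T)).ncard : ℝ) ≤
        (wide T (T + H) (e / 300 * (e / 4) / Real.log T)).ncard := by
      exact_mod_cast far_le_wide (by linarith)
    have a8 := wide_le (T₁ := T) (T₂ := T + H) (d := e / 300 * (e / 4) / Real.log T)
      (D := 64 * Real.pi / e / Real.log T) (by linarith) (by positivity)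
    have a4 : e / 300 * (e / 4) / (e / 300) = e / 4 := by field_simp
    rw [a4] at a3
    have a5 : (16 : ℝ) ≤ (N T (T + H) : ℝ) * e := by rwa [div_le_iff₀ he0] at a2
    have a6 : 74 * (e / 300) ^ 2 ≤ e / 16 := by nlinarith
    set n := (N T (T + H) : ℝ) with hn
    have hn0 : 0 ≤ n := by positivity
    have a9 : (T + H - T) / (64 * Real.pi / e / Real.log T) ≤ n * e / 16 := by
      rw [div_le_iff₀ (by positivity)]
      have : n * e / 16 * (64 * Real.pi / e / Real.log T) = 4 * Real.pi * n / Real.log T := by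
        field_simp
        ring
      rw [this, le_div_iff₀ hL]
      linarith
    constructor
    · have b1 : (0.6725 + e / 4) * n ≤
        (2 - IsolatedSimpleZeros.c 1 + κ - 74 * (e / 300) ^ 2 - e / 4 - e / 4) * n :=
        mul_le_mul_of_nonneg_right (by linarith) hn0
      have b2 : (2 - IsolatedSimpleZeros.c 1 + κ - 74 * (e / 300) ^ 2 - e / 4 - e / 4) * n =
        (2 - IsolatedSimpleZeros.c 1 + κ - 74 * (e / 300) ^ 2 - e / 4) * n - n * e / 4 := by
        ring
      linarith [a3.1]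
    · refine le_trans ?_ a3.2
      have b1 : (0.50875 + e / 4) * n ≤
        ((3 * (2 - IsolatedSimpleZeros.c 1 + κ - 74 * (e / 300) ^ 2) - 1) / 2 - e / 4) * n := by
        apply mul_le_mul_of_nonneg_right _ hn0
        linarith
      have b2 : ((3 * (2 - IsolatedSimpleZeros.c 1 + κ - 74 * (e / 300) ^ 2) - 1) / 2
          - e / 4) * n =
        ((3 * (2 - IsolatedSimpleZeros.c 1 + κ - 74 * (e / 300) ^ 2) - 1) / 2) * n
          - n * e / 4 := by ring
      linarith

end Pool.Agent.Results.MP_af3d17_nt.OrdinateGaps
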